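import Pool.Agent.Helper28.MT.Goals2

/-!
# Project MT2 (MP_bb782b_co), packet MT2-SEL2: assembly by induction

Adapted from `Pool/Agent/Helper14/MT/SEL.lean`.
-/

set_option autoImplicit false

namespace Pool.Agent.Helper80.MT2

open Finset
open Pool.Agent.Helper55.Rota
open Pool.Agent.Helper28.MT
open Pool.Agent.Helper28.MT2

theorem mt2_sel2 : G_LAB2 → G_X → G_STEP2 → G_POTB → G_SEL2 := by
  intro hLAB hX hSTEP hPOT α _ _ R n k h s b t hk hn hkh hs hsh hW hr hb ht
  have hk0 : 0 < k := by omega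
  have hcard : Fintype.card α = n * k := by
    have h1 : (univ : Finset α).card = ∑ i : Fin n, (univ.filter (fun x => b x = i)).card :=
      Finset.card_eq_sum_card_fiberwise (fun x _ => mem_univ (b x))
    rw [← Finset.card_univ, h1, Finset.sum_congr rfl (fun i _ => hb i)]
    simp
  have hloop : ∀ x, 0 < R.r {x} := by
    intro x
    have h1 := ht (t x) {x} (fun y hy => by rw [mem_singleton.1 hy])
    rw [card_singleton] at h1
    omega
  obtain ⟨f, hf1, hf2⟩ := hLAB α n k h s (Ufam R b) (Xfam R b t) hk hn hkh hs hsh hcard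
  have hLab : Lab2 R n k h s b f := by
    refine ⟨hf1, ?_⟩
    intro I F hF hlt
    obtain ⟨h1, j, E, Q, hXe, hEQ⟩ := hX α R n k b t hk0 hb ht I F hF hlt
    have h2 : k ≤ (blkU b I \ F).card := by
      have h3 : k * 1 ≤ k * (I.card - R.r F) := Nat.mul_le_mul_left k (by omega)
      omega
    have h3 := hf2 I j E Q (by rw [← hXe]; exact h2) (by rw [← hXe]; exact hEQ)
    rw [← hXe] at h3
    exact h1.trans h3
  have hind : ∀ j ≤ 2 ^ s, ∃ T : ℕ → Finset α, Good2 R n k h s b f T j := by
    intro j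
    induction j with
    | zero =>
      intro _
      exact ⟨fun _ => ∅, fun i hi => absurd hi (Nat.not_lt_zero i),
        fun i hi => absurd hi (Nat.not_lt_zero i),
        (hPOT h k s _ 0 hs hsh hW (Nat.zero_le _)).1⟩
    | succ j ih =>
      intro hj
      obtain ⟨T, hT⟩ := ih (by omega)
      exact hSTEP α R n k h s b f T j hk0 hn hs hsh (by omega) hW hr hloop hLab hT
  obtain ⟨T, hT1, hT2, _⟩ := hind (2 ^ s) le_rfl
  exact ⟨T, fun i hi => ⟨(hT1 i hi).2.1, (hT1 i hi).2.2⟩, hT2⟩

end Pool.Agent.Helper80.MT2
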